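import Pool.Agent.H93.EF.Glue
import Pool.Agent.H90.EF.Peel

/-!
# Erdős–Frankl conjecture: common definitions, version 2 (helper79)

Levels `α`, cube of dimension `W` = subsets of `range W` (peeled coordinate `W`), thresholds `J`.
Core definitions (helper90, `H90/EF/Peel.lean`): `cc`, `Ok W α J`, `EN W N J`, `TT N`,
`Bd ι W α N K`.  Everything is unnormalised.
-/

set_option autoImplicit false

open Finset

namespace Pool.Agent.H79.EF

open Pool.Agent.H93.EF (cw Nb)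

/-- condition `HH` at `j` -/
def HHj (k : ℕ) (x : ℝ) (N : ℤ → ℝ) (j : ℤ) : Prop :=
  ((1 + x) * N j) ^ k ≤ (N j + x * N (j + 1)) * (N j + x * N (j - 1)) ^ (k - 1)

/-- positive, nondecreasing, log-concave on `ℕ`, zero on negative integers -/
structure LC (N : ℤ → ℝ) : Prop where
  neg : ∀ j < 0, N j = 0
  pos : ∀ j, 0 ≤ j → 0 < N j
  mono : Monotone N
  lc : ∀ j, N (j - 1) * N (j + 1) ≤ N j ^ 2

/-- balanced product of `k` values of `Nb n` with arguments of sum `σ` -/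
noncomputable def bal (k n σ : ℕ) : ℝ :=
  Nb n (σ / k : ℕ) ^ (k - σ % k) * Nb n ((σ / k : ℕ) + 1) ^ (σ % k)

/-- the state `(t, α)` is finished with the cut `c` and the ratio `ρ`: `c` is the critical level,
and either `α` is this level, or `HH` holds up to `c` for the majorant of `N = Nb (t + α)` which is
`N` up to `c` and geometric with ratio `ρ` beyond (`ρ = N c / N (c + 1)` is allowed). -/
def Fin5 (k t α c : ℕ) (x ρ : ℝ) : Prop :=
  α ≤ k * c ∧ x * Nb (t + k * c) (c + 1) ≤ Nb (t + k * c) c ∧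
    Nb (t + k * c) (c - 1) ≤ x * Nb (t + k * c) c ∧
    (α = k * c ∨
      (0 < ρ ∧ ρ * Nb (t + α) (c + 1) ≤ Nb (t + α) c ∧ Nb (t + α) (c - 1) ≤ ρ * Nb (t + α) c ∧
        x * (Nb (t + k * c) (c + 1) + Nb (t + α) c / ρ - Nb (t + α) (c + 1)) ≤ Nb (t + k * c) c ∧
        (∀ j : ℕ, j < c → HHj k x (Nb (t + α)) j) ∧
        ((1 + x) * Nb (t + α) c) ^ k ≤
          (Nb (t + α) c + x * (Nb (t + α) c / ρ)) *
            (Nb (t + α) c + x * Nb (t + α) (c - 1)) ^ (k - 1)))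

/-- the step condition at level `α` for `k = 3` (mixture of the tests `κ = (0, α+1, α+1)`, weight
`4` for each leader, and `κ = ⌈(α+1)/2⌉` for all three, weight `3`) -/
def Good (x : ℝ) (α : ℕ) (N : ℤ → ℝ) : Prop :=
  (∀ j : ℕ, 2 * j ≤ α →
    ((1 + x) * N j) ^ 15 ≤ (N j + x * N (j + 1)) ^ 4 * (N j + x * N (j - 1)) ^ 11) ∧
  (∀ j : ℕ, α < 2 * j → j ≤ α →
    ((1 + x) * N j) ^ 15 ≤ (N j + x * N (j + 1)) ^ 7 * (N j + x * N (j - 1)) ^ 8)

end Pool.Agent.H79.EF
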